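import Pool.Agent.Helper48.AED.Spec

/-! MP_8e9e20_co, part PER. -/

set_option autoImplicit false

namespace Pool.Agent.Helper9.AED.PER

open Pool.AED48

theorem main : Pool.AED48.S_PER := by
  intro n A μ U hA h a
  by_contra hcon
  push Not at hcon
  set x : Fin n → ℝ := fun i => |U a i| with hx
  have h1 : ∑ i, ∑ j, U a i * (A i j * U a j) = μ a := by
    calc ∑ i, ∑ j, U a i * (A i j * U a j) = ∑ i, U a i * (∑ j, A i j * U a j) := by
          simp_rw [Finset.mul_sum]
      _ = ∑ i, μ a * (U a i * U a i) := by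
          apply Finset.sum_congr rfl; intro i _; rw [h.eig]; ring
      _ = μ a := by rw [← Finset.mul_sum, h.orth]; simp
  have h2 : |μ a| ≤ ∑ i, ∑ j, x i * (A i j * x j) := by
    rw [← h1]
    refine (Finset.abs_sum_le_sum_abs _ _).trans (Finset.sum_le_sum fun i _ => ?_)
    refine (Finset.abs_sum_le_sum_abs _ _).trans (Finset.sum_le_sum fun j _ => ?_)
    rw [abs_mul, abs_mul, abs_of_nonneg (hA i j)]
  have h3 : ∑ i, ∑ j, x i * (A i j * x j) = ∑ b, μ b * (∑ i, U b i * x i) ^ 2 := by
    calc ∑ i, ∑ j, x i * (A i j * x j)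
        = ∑ i, ∑ j, ∑ b, μ b * ((U b i * x i) * (U b j * x j)) := by
          apply Finset.sum_congr rfl; intro i _; apply Finset.sum_congr rfl; intro j _
          rw [h.eq, Finset.sum_mul, Finset.mul_sum]
          apply Finset.sum_congr rfl; intro b _; ring
      _ = ∑ b, ∑ i, ∑ j, μ b * ((U b i * x i) * (U b j * x j)) :=
          (Finset.sum_congr rfl fun i _ => Finset.sum_comm).trans Finset.sum_comm
      _ = ∑ b, μ b * (∑ i, U b i * x i) ^ 2 := by
          apply Finset.sum_congr rfl; intro b _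
          rw [sq, Finset.sum_mul_sum, Finset.mul_sum]
          apply Finset.sum_congr rfl; intro i _
          rw [Finset.mul_sum]
  have h4 : ∑ b, (∑ i, U b i * x i) ^ 2 = 1 := by
    calc ∑ b, (∑ i, U b i * x i) ^ 2
        = ∑ b, ∑ i, ∑ j, (x i * x j) * (U b i * U b j) := by
          apply Finset.sum_congr rfl; intro b _
          rw [sq, Finset.sum_mul_sum]
          apply Finset.sum_congr rfl; intro i _
          apply Finset.sum_congr rfl; intro j _
          ring
      _ = ∑ i, ∑ j, ∑ b, (x i * x j) * (U b i * U b j) :=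
          Finset.sum_comm.trans (Finset.sum_congr rfl fun i _ => Finset.sum_comm)
      _ = ∑ i, ∑ j, (x i * x j) * (if i = j then 1 else 0) := by
          apply Finset.sum_congr rfl; intro i _; apply Finset.sum_congr rfl; intro j _
          rw [← Finset.mul_sum, h.orth']
      _ = ∑ i, U a i * U a i := by
          apply Finset.sum_congr rfl; intro i _
          simp [hx]
      _ = 1 := by rw [h.orth]; simp
  have h5 : ∑ b, (|μ a| - μ b) * (∑ i, U b i * x i) ^ 2 ≤ 0 := by
    simp_rw [sub_mul]
    rw [Finset.sum_sub_distrib, ← Finset.mul_sum, h4, ← h3]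
    linarith
  have h6 : ∀ b ∈ Finset.univ, 0 ≤ (|μ a| - μ b) * (∑ i, U b i * x i) ^ 2 := fun b _ =>
    mul_nonneg (sub_nonneg.2 (hcon b).le) (sq_nonneg _)
  have h7 : ∀ b, (∑ i, U b i * x i) ^ 2 = 0 := by
    intro b
    have h8 := (Finset.sum_eq_zero_iff_of_nonneg h6).1 (le_antisymm h5 (Finset.sum_nonneg h6)) b
      (Finset.mem_univ b)
    rcases mul_eq_zero.1 h8 with h9 | h9
    · have := hcon b
      linarith
    · exact h9
  simp [h7] at h4

end Pool.Agent.Helper9.AED.PER
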